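import Mathlib
import Pool.Agent.H16NC.N5

/-!
# `n`-central polynomials in characteristic `n`: central values modulo `t` times the radical

`K` is any infinite field of characteristic `n`, an odd prime, and `f` an `n`-central polynomial for
`M_n(K)` in any set of variables.  (By a theorem of Albert, a division algebra of degree `n` over a field
of characteristic `n` is cyclic if and only if it has a noncentral element with central `n`-th power.
So an `n`-central polynomial in characteristic `n` amounts to a purely inseparable maximal subfield of
the generic division algebra.)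

We consider tuples `A` of block upper triangular arrays over `ℕ × ℕ` with period `n`; the boundaries
of the blocks are given by a composition of `n`.  These arrays form a hereditary order in `M_n(K[[t]])`.
Their windows are the submatrices formed by the rows and columns `p, …, p + m - 1`.

* For each admissible composition and each array there is one scalar `ψ` such that the value of `f` at
  the window which starts at any boundary `p` and ends at the end of the repetition of the block at
  `p` (so it has the diagonal blocks `Y_1, …, Y_r, Y_1`) is `c + ψ E`; here `c` is the coefficient of the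
  empty word, and `E` has the entries `1` at the places `(k, k + n)` and `0` elsewhere.  (The central
  element `c + ψ t` of `M_n(K[[t]])` has the value `c + ψ E` at these windows.)
* For upper triangular arrays this holds for all windows of size at most `n + (n - 1) / 2`.

So modulo `t` times the radical of the order the values of `f` are central, as for a central
polynomial.  The starting results `BlockTriangular` and `ClosedWalks` give: `f` is constant on the block
triangular matrices of size `n`, and the corner entries of `f` at the windows of size `n + 1` of
an upper triangular array are all equal.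

The proof.  Let `g = f - c`; then `g ^ n` takes only scalar values.  Let `T` be the corner block
of the value of `g` for off-diagonal blocks of rank one, `D = x yᵀ`.  Then `T(D) ^ n` is a scalar matrix,
hence `T(D)` is the sum of a scalar matrix and a nilpotent matrix, and since the size `a < n` of the block
is invertible in `K` the scalar is the trace divided by `a`.  The operator `T - (tr T / a)` is
equivariant under the conjugations of `Y_1` and `D`, and nilpotent on the matrices of rank one; by
the leading terms for weights of the Heisenberg matrices it is zero (as in `OuterBlocks`).  The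
`n`-th powers of the scalars at the different windows are equal, hence so are the scalars.
-/

set_option autoImplicit false

namespace Pool.Agent.Results.MP_5d2531_al.CharacteristicN

open Matrix
open Pool.Agent.Results.MP_5d2531_al.BlockTriangular (IsNuCentral coef)

/-- `f` is constant on the block upper triangular `n × n` matrices with two diagonal blocks, of sizes
`s` and `n - s` (the value is the coefficient of the empty word). -/
def ConstantOn {K : Type*} [Field K] {σ : Type*} (f : FreeAlgebra K σ) (n s : ℕ) : Prop :=
  ∀ X : σ → Matrix (Fin n) (Fin n) K,
    (∀ i (k l : Fin n), (l : ℕ) < s → s ≤ (k : ℕ) → X i k l = 0) →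
      FreeAlgebra.lift K X f = algebraMap K _ (coef f [])

/-- A composition of `n`, given by its boundaries: `P` contains `0`, and it is periodic with period
`n`.  (The parts of the composition are the distances of consecutive elements of `P`.)  For every
`p ∈ P` there is `s` with `0 < s < n`, `p + s ∈ P`, such that `f` is constant on the block upper
triangular matrices with diagonal blocks of sizes `s`, `n - s`. -/
structure Admissible {K : Type*} [Field K] {σ : Type*} (f : FreeAlgebra K σ) (n : ℕ)
    (P : Set ℕ) : Prop where
  zero_mem : 0 ∈ P
  periodic : ∀ q, q + n ∈ P ↔ q ∈ P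
  step : ∀ p ∈ P, ∃ s, 0 < s ∧ s < n ∧ p + s ∈ P ∧ ConstantOn f n s

/-- `A i`, for each variable `i`, is a block upper triangular array with period `n`; the elements of
`P` are the boundaries of the blocks. -/
def BlockArray {K : Type*} [Field K] {σ : Type*} (n : ℕ) (P : Set ℕ) (A : σ → ℕ → ℕ → K) : Prop :=
  (∀ i k l, ∀ q ∈ P, l < q → q ≤ k → A i k l = 0) ∧ ∀ i k l, A i (k + n) (l + n) = A i k l

/-- The window of size `m` of the array `A i` which starts at the place `p`. -/
def window {K : Type*} [Field K] {σ : Type*} (m : ℕ) (A : σ → ℕ → ℕ → K) (p : ℕ) (i : σ) :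
    Matrix (Fin m) (Fin m) K :=
  Matrix.of fun x y => A i (p + x) (p + y)

/-- The matrix of size `m` with the entries `c` at the places `(k, k)`, `ψ` at the places
`(k, k + n)`, and `0` elsewhere. -/
def centralWindow {K : Type*} [Field K] (n m : ℕ) (c ψ : K) : Matrix (Fin m) (Fin m) K :=
  Matrix.of fun k l => (if (l : ℕ) = k then c else 0) + if (l : ℕ) = k + n then ψ else 0

theorem cw_eq {K : Type*} [Field K] (n m : ℕ) (c ψ : K) : centralWindow n m c ψ =
    algebraMap K _ c + Pool.Agent.H16NC.cm n m ψ := by
  ext k l
  rw [centralWindow, Matrix.add_apply, Pool.Agent.H16NC.cm, Matrix.of_apply, Matrix.of_apply,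
    Matrix.algebraMap_matrix_apply]
  congr 1
  by_cases h : k = l
  · rw [if_pos (by rw [h]), if_pos h]; rfl
  · rw [if_neg (fun h1 => h (Fin.ext h1.symm)), if_neg h]

/-- Let `n` be an odd prime, `K` an infinite field of characteristic `n`, and `f` an `n`-central
polynomial for `M_n(K)`, with the coefficient `c` of the empty word.

* A composition of `n` with the set `P` of boundaries is admissible if for every `p ∈ P` there is `s`
  with `0 < s < n` such that `p + s` and `p + (n - s)` are in `P`.
* Let `P` be the set of boundaries of an admissible composition of `n`.  For every tuple `A` of block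
  upper triangular arrays with period `n` and the boundaries `P` there is `ψ` in `K` such that for any
  two consecutive elements `p` and `p + b` of `P` the value of `f` at the window of size `n + b` of `A`
  which starts at `p` has the entries `c` on the diagonal, `ψ` at the places `(k, k + n)`, and `0`
  elsewhere.
* For every tuple `A` of upper triangular arrays with period `n` there is `ψ` in `K` such that for all `b`
  with `2 b < n` and all `p` the value of `f` at the window of size `n + b` of `A` which starts at `p` is
  this matrix. -/
theorem result {K : Type*} [Field K] [Infinite K] {σ : Type*} (n : ℕ) (hn : n.Prime)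
    (hn2 : n ≠ 2) (hnK : (n : K) = 0) (f : FreeAlgebra K σ) (hcen : IsNuCentral n n f) :
    (∀ P : Set ℕ, 0 ∈ P → (∀ q, q + n ∈ P ↔ q ∈ P) →
      (∀ p ∈ P, ∃ s, 0 < s ∧ s < n ∧ p + s ∈ P ∧ p + (n - s) ∈ P) → Admissible f n P) ∧
    (∀ P : Set ℕ, Admissible f n P → ∀ A : σ → ℕ → ℕ → K, BlockArray n P A →
      ∃ ψ : K, ∀ p ∈ P, ∀ b : ℕ, 0 < b → p + b ∈ P → (∀ q, p < q → q < p + b → q ∉ P) →
        FreeAlgebra.lift K (window (n + b) A p) f = centralWindow n (n + b) (coef f []) ψ) ∧
    (∀ A : σ → ℕ → ℕ → K, (∀ i k l, l < k → A i k l = 0) →
      (∀ i k l, A i (k + n) (l + n) = A i k l) →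
      ∃ ψ : K, ∀ b : ℕ, 2 * b < n → ∀ p : ℕ,
        FreeAlgebra.lift K (window (n + b) A p) f = centralWindow n (n + b) (coef f []) ψ) := by
  have hVC : ∀ s, Pool.Agent.H16NC.Van (Pool.Agent.H16NC.gz f) n s ↔ ConstantOn f n s := by
    intro s
    constructor
    · intro h X hX
      rw [Pool.Agent.H16NC.gz_lift, h X hX, add_zero]
    · intro h X hX
      have h1 := h X hX
      rw [Pool.Agent.H16NC.gz_lift] at h1
      exact left_eq_add.mp h1.symm
  refine ⟨fun P h0 hper hmid => ⟨h0, hper, fun p hp => ?_⟩, fun P hP A hA => ?_,
    fun A hA1 hA2 => ?_⟩
  · obtain ⟨s, hs0, hsn, h1, h2⟩ := hmid p hp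
    rcases Pool.Agent.H16NC.van_orN hn hn2 f hcen s hs0 hsn with hV | hV
    · exact ⟨s, hs0, hsn, h1, (hVC s).mp hV⟩
    · exact ⟨n - s, by omega, by omega, h2, (hVC _).mp hV⟩
  · obtain ⟨ψ, hψ⟩ := Pool.Agent.H16NC.arr_main hn hnK (Pool.Agent.H16NC.gz f)
      (Pool.Agent.H16NC.gz_sc hn hnK f hcen) (fun q => q ∈ P) hP.periodic hP.zero_mem
      (fun p hp => by
        obtain ⟨s, h1, h2, h3, h4⟩ := hP.step p hp
        exact ⟨s, h1, h2, h3, (hVC s).mpr h4⟩) A ⟨fun i k l q hq => hA.1 i k l q hq, hA.2⟩
    refine ⟨ψ, fun p hp b hb hpb hmin => ?_⟩
    rw [Pool.Agent.H16NC.gz_lift, cw_eq]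
    congr 1
    exact hψ p b hp hb hpb (fun q hq0 hq => hmin (p + q) (by omega) (by omega))
  · refine ⟨Pool.Agent.R176.NC.psi n (Pool.Agent.H16NC.gz f) A 0, fun b hb p => ?_⟩
    rw [Pool.Agent.H16NC.gz_lift, cw_eq]
    congr 1
    exact Pool.Agent.H16NC.tri_main hn hn2 hnK f hcen A ⟨hA1, hA2⟩ b hb p

end Pool.Agent.Results.MP_5d2531_al.CharacteristicN
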