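import Mathlib
import Pool.Agent.H16NC.It4

/-!
# The order of an `n`-central polynomial along the Iwahori filtration is not divisible by `n`

`K` is any infinite field, `n` an odd prime, and `f` an `n`-central polynomial for `M_n(K)` in any set
of variables.  The upper triangular arrays `P` over `ℕ × ℕ` with period `n` form the Iwahori order of
`M_n(K[[t]])` (the matrices over `K[[t]]` which are upper triangular modulo `t`); the array `P`
corresponds to the matrix with entries `∑ P k (l + n s) t ^ s`, `0 ≤ k, l < n`.  The windows of size `m`
of these arrays (the `m × m` matrices formed by the rows and columns `a, …, a + m - 1`) describe the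
order modulo the power `m` of its radical.  So the largest `m` such that `f` is constant on all windows
of size `m` measures how the values of `f` at the Iwahori order are ramified.

The starting results `BlockTriangular` and `ClosedWalks` treat the windows of the sizes `n` and `n + 1`:
`f` is constant on the windows of size `n`, and if the characteristic is not `n` and `K` has no primitive
`n`-th root of unity then also on the windows of size `n + 1`.  Here we consider windows of all sizes.

* There is `k ≥ n` such that `f` is constant on the windows of size `m` if and only if `m ≤ k`.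
* If the characteristic of `K` is not `n` and `K` has no primitive `n`-th root of unity, then `k` is not
  divisible by `n`.
* If the characteristic is not `n` and `k` is divisible by `n`, then there is a primitive `n`-th root of
  unity `ζ` in `K` such that the corner entries of the values of `f` at the windows of size `k + 1` of
  any array which start at the places `0, 1, 2, …` are `ψ, ζ ψ, ζ² ψ, …`.
* If the characteristic is `n` and `k` is divisible by `n` then these corner entries are all equal.

The proof.  Let `k = n j` and `F` the value of `f` (minus its constant) at the matrix over `K[[t]]` with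
the array `P`.  Then `F = t ^ j G`, where `G` is upper triangular modulo `t` with the corner entries
`ψ_0, …, ψ_{n-1}` as diagonal entries modulo `t`.  Since `K[[t]]` is a domain, the characteristic
polynomial of `G` modulo `t` is `∏ (X - ψ_a) = X ^ n - c` (if the characteristic is not `n`), hence
`ψ_a ^ n = c` for all `a`, and `∑ ψ_a = 0`.
-/

set_option autoImplicit false

namespace Pool.Agent.Results.MP_5d2531_al.IwahoriOrder

open Matrix
open Pool.Agent.Results.MP_5d2531_al.BlockTriangular (IsNuCentral IsCentral coef)

/-- `P i`, for each variable `i`, is an upper triangular array with period `n`. -/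
def Periodic {K : Type*} [Field K] {σ : Type*} (n : ℕ) (P : σ → ℕ → ℕ → K) : Prop :=
  (∀ i a b, b < a → P i a b = 0) ∧ ∀ i a b, P i (a + n) (b + n) = P i a b

/-- The window of size `m` of the array `P i` which starts at the place `a`. -/
def window {K : Type*} [Field K] {σ : Type*} (m : ℕ) (P : σ → ℕ → ℕ → K) (a : ℕ) (i : σ) :
    Matrix (Fin m) (Fin m) K :=
  Matrix.of fun x y => P i (a + x) (a + y)

/-- `f` is constant on the windows of size `m` of the upper triangular arrays with period `n`: the
value at each of them is the scalar matrix of the coefficient of the empty word (the value at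
zero). -/
def ConstantOnWindows {K : Type*} [Field K] {σ : Type*} (f : FreeAlgebra K σ) (n m : ℕ) : Prop :=
  ∀ P : σ → ℕ → ℕ → K, Periodic n P → ∀ a : ℕ,
    FreeAlgebra.lift K (window m P a) f = algebraMap K _ (coef f [])

/-- The corner entry (row `0`, column `k`) of the value of `f` at the window of size `k + 1` which
starts at the place `a`. -/
noncomputable def corner {K : Type*} [Field K] {σ : Type*} (f : FreeAlgebra K σ) (k : ℕ)
    (P : σ → ℕ → ℕ → K) (a : ℕ) : K :=
  FreeAlgebra.lift K (window (k + 1) P a) f 0 (Fin.last k)

/-- Let `n` be an odd prime, `K` an infinite field and `f` an `n`-central polynomial for `M_n(K)`.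
There is `k ≥ n` such that `f` is constant on the windows of size `m` of the upper triangular arrays
with period `n` if and only if `m ≤ k`, and the following holds.

* If the characteristic of `K` is not `n` and `K` has no primitive `n`-th root of unity then `n` does not
  divide `k`.
* If the characteristic of `K` is not `n` and `n` divides `k` then there is a primitive `n`-th root of
  unity `ζ` in `K` such that for every tuple `P` of upper triangular arrays with period `n` and all
  `a` the corner entry of the value of `f` at the window of size `k + 1` of `P` which starts at the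
  place `a` is `ζ ^ a` times the one for the window which starts at `0`.
* If the characteristic of `K` is `n` and `n` divides `k` then these corner entries are all equal. -/
theorem result {K : Type*} [Field K] [Infinite K] {σ : Type*} (n : ℕ)
    (hn : n.Prime) (hn2 : n ≠ 2) (f : FreeAlgebra K σ) (hcen : IsNuCentral n n f) :
    ∃ k : ℕ, n ≤ k ∧ (∀ m : ℕ, ConstantOnWindows f n m ↔ m ≤ k) ∧
      ((n : K) ≠ 0 → (¬ ∃ ζ : K, IsPrimitiveRoot ζ n) → ¬ n ∣ k) ∧
      ((n : K) ≠ 0 → n ∣ k → ∃ ζ : K, IsPrimitiveRoot ζ n ∧ ∀ P : σ → ℕ → ℕ → K, Periodic n P →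
        ∀ a : ℕ, corner f k P a = ζ ^ a * corner f k P 0) ∧
      ((n : K) = 0 → n ∣ k → ∀ P : σ → ℕ → ℕ → K, Periodic n P →
        ∀ a : ℕ, corner f k P a = corner f k P 0) := by
  classical
  set c := coef f [] with hc
  set g := f - algebraMap K (FreeAlgebra K σ) c with hg
  have hiff : ∀ m, ConstantOnWindows f n m ↔ Pool.Agent.H16NC.Vans g n m := by
    intro m
    constructor
    · intro h P hP a
      have h1 := h P hP a
      rw [hg, map_sub, AlgHom.commutes]
      exact sub_eq_zero.mpr h1
    · intro h P hP a
      have h1 := h P hP a
      rw [hg, map_sub, AlgHom.commutes] at h1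
      exact sub_eq_zero.mp h1
  have hex : ∃ m, ¬ Pool.Agent.H16NC.Vans g n m := by
    by_contra hcon
    push Not at hcon
    have h1 := Pool.Agent.H16NC.not_all hn.pos g hcon
    have h2 : ∀ X : σ → Matrix (Fin n) (Fin n) K, FreeAlgebra.lift K X f = algebraMap K _ c := by
      intro X
      have h3 := h1 X
      rw [hg, map_sub, AlgHom.commutes] at h3
      exact sub_eq_zero.mp h3
    obtain ⟨-, ⟨-, X0, hX0⟩, h3⟩ := hcen
    have h4 : IsCentral n (f ^ 1) := by
      rw [pow_one]
      refine ⟨fun X => ⟨c, by rw [h2]; rfl⟩, X0, fun h5 => hX0 ?_⟩
      rw [map_pow, h5, zero_pow hn.ne_zero]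
    have h5 := h3 1 one_pos h4
    have h6 := hn.two_le
    omega
  have h0 : Pool.Agent.H16NC.Vans g n 0 := by
    rw [Pool.Agent.H16NC.vans_iff]
    intro P hP a b hb
    exact Pool.Agent.H16NC.V_low P hP g a b (by omega)
  have hnn : Pool.Agent.H16NC.Vans g n n := by
    intro P hP a
    rw [hg, map_sub, AlgHom.commutes]
    refine sub_eq_zero.mpr (Pool.Agent.R176.NC.up_const n hn hn2 f hcen
      (fun i => Matrix.of fun x y => P i (a + x) (a + y)) (fun i x y hxy => hP.1 i _ _ ?_))
    have : (y : ℕ) < x := hxy
    omega
  have hm0 : 0 < Nat.find hex := by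
    rcases Nat.eq_zero_or_pos (Nat.find hex) with h | h
    · exact absurd (h ▸ h0) (Nat.find_spec hex)
    · exact h
  have hkm : ∀ m, Pool.Agent.H16NC.Vans g n m ↔ m ≤ Nat.find hex - 1 := by
    intro m
    constructor
    · intro h
      by_contra h1
      exact Nat.find_spec hex (Pool.Agent.H16NC.vans_mono g n (by omega) h)
    · intro h
      by_contra h1
      exact Nat.find_min hex (m := m) (by omega) h1
  set k := Nat.find hex - 1 with hk
  have hnk : n ≤ k := (hkm n).mp hnn
  have hroot : (n : K) ≠ 0 → n ∣ k → ∃ ζ : K, IsPrimitiveRoot ζ n ∧
      ∀ P : σ → ℕ → ℕ → K, Periodic n P → ∀ a : ℕ, corner f k P a = ζ ^ a * corner f k P 0 := by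
    rintro hnK ⟨j, hj⟩
    have hc0 : c = 0 := Pool.Agent.R176.NC.coef_nil n hn hnK f hcen
    have hgf : g = f := by rw [hg, hc0, map_zero, sub_zero]
    rw [hgf] at hkm
    rcases Pool.Agent.H16NC.dichK hn hn2 hnK f (Pool.Agent.R176.NC.charpoly_eq n hn hnK f hcen) j
      ((hkm _).mpr (by omega)) with h | ⟨ζ, hζ, h⟩
    · have := (hkm _).mp h
      omega
    · refine ⟨ζ, hζ, fun P hP a => ?_⟩
      rw [hj]
      exact h P hP a
  refine ⟨k, hnk, fun m => (hiff m).trans (hkm m), ?_, hroot, ?_⟩
  · intro hnK hK hdvd
    obtain ⟨ζ, hζ, -⟩ := hroot hnK hdvd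
    exact hK ⟨ζ, hζ⟩
  · rintro hnK ⟨j, hj⟩ P hP a
    have hsc : ∀ X : σ → Matrix (Fin n) (Fin n) K,
        ∃ c : K, FreeAlgebra.lift K X g ^ n = Matrix.scalar (Fin n) c := by
      intro X
      have : Fact n.Prime := ⟨hn⟩
      have : CharP K n := by
        obtain ⟨q, hq⟩ := CharP.exists K
        have h4 : q ∣ n := (CharP.cast_eq_zero_iff K q n).mp hnK
        rcases (Nat.dvd_prime hn).mp h4 with h5 | h5
        · exfalso
          have := CharP.cast_eq_zero K q
          rw [h5] at this
          simp at this
        · rw [← h5]; exact hq
      have : CharP (FreeAlgebra K σ) n :=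
        charP_of_injective_algebraMap (algebraMap K (FreeAlgebra K σ)).injective n
      have h4 : g ^ n = f ^ n - algebraMap K (FreeAlgebra K σ) (c ^ n) := by
        rw [hg, sub_pow_char_of_commute n (Algebra.commutes c f).symm, map_pow]
      obtain ⟨d, hd⟩ := hcen.2.1.1 X
      refine ⟨d - c ^ n, ?_⟩
      rw [← map_pow, h4, map_sub, hd, AlgHom.commutes, map_sub]
      rfl
    have hkpos : 0 < k := lt_of_lt_of_le hn.pos hnk
    have hcor : ∀ a, corner f k P a = Pool.Agent.R176.NC.psi k g P a := by
      intro a
      have hne : (0 : Fin (k + 1)) ≠ Fin.last k := by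
        intro h
        have h1 := congrArg Fin.val h
        rw [Fin.val_zero, Fin.val_last] at h1
        omega
      unfold Pool.Agent.R176.NC.psi
      rw [hg, map_sub, AlgHom.commutes, Matrix.sub_apply, Matrix.algebraMap_matrix_apply,
        if_neg hne, sub_zero]
      rfl
    rw [hcor, hcor, hj]
    exact Pool.Agent.H16NC.constK hn hnK g hsc j ((hkm _).mpr (by omega)) P hP a

end Pool.Agent.Results.MP_5d2531_al.IwahoriOrder
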