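import Mathlib
import Pool.Agent.H16NC.Cor1

/-!
# `n`-central polynomials on block triangular matrices with equal outer blocks

`K` is any infinite field, `n` an odd prime which is not the characteristic of `K`, and `f` an
`n`-central polynomial for `M_n(K)` in any set of variables.  The starting result `BlockTriangular`
says that `f` vanishes on the block upper triangular `n × n` matrices with diagonal blocks of sizes
`s`, `n - s`, or on those with diagonal blocks of sizes `n - s`, `s`.  The starting result
`ClosedWalks` goes beyond the size `n`: if `K` has no primitive `n`-th root of unity then `f` vanishes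
on the upper triangular matrices of size `n + 1` with equal first and last diagonal entries.

Here we consider block upper triangular matrices of size `n + a` whose diagonal blocks
`Y_1, Y_2, …, Y_r, Y_1` begin and end with the same, arbitrary, `a × a` matrix `Y_1`, the sizes of
`Y_1, …, Y_r` being any composition of `n` into `r ≥ 2` parts.

* (General theorem.)  `f` vanishes on all these matrices, if `a ≠ 0` in `K`, if
  `X ^ n - 1` has no factorization over `K` into factors whose degrees are the sizes of
  `Y_1, …, Y_r`, and if the composition is admissible: for every cyclic rotation of the composition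
  `f` vanishes on the block upper triangular `n × n` matrices with two diagonal blocks, for at least
  one way to join neighbouring parts of the rotation to two parts.  By `BlockTriangular` this holds if
  every rotation of the composition has two such joinings with the sizes `s, n - s` and `n - s, s`.
* (Explicit case.)  If `K` has no primitive `n`-th root of unity, `2 a < n` and `a ≠ 0` in `K`, then
  `f` vanishes on all block upper triangular matrices of size `n + a` with diagonal blocks
  `Y, t_1, …, t_{n-a}, Y`, where `Y` is any `a × a` matrix and the `t_i` are scalars.  The case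
  `a = 1` is the statement of `ClosedWalks` mentioned above.

The proof.  Let `X` be block upper triangular of size `n` with diagonal blocks `Y_1, …, Y_r`, and `Z`
any matrix.  Then `f (X + t Z) = t H(t)`, the characteristic polynomial of `H(0)` is `x ^ n - c`, and
`H(0)` is block upper triangular; its first diagonal block is the block in the upper right corner of
the value of `f` at a matrix with the diagonal blocks `Y_1, …, Y_r, Y_1`.  The condition on
`X ^ n - 1` implies that `c = 0`, hence this block `T` is nilpotent.  It depends linearly on the
blocks `D = x yᵀ` of rank one, and is equivariant under the conjugations of `Y_1` and `D`.  We give the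
coordinates of `Y_1` in a basis of Heisenberg matrices `U ^ i V ^ j` (`V U = ω U V`, `ω` a primitive
`a`-th root of unity) the weights `s ^ i t ^ j`; the leading term of `T` is an operator which maps
`U ^ i V ^ j` to a multiple of `U ^ (i + k) V ^ (j + l)`, and it maps the matrices of rank one to nilpotent
matrices.  Using the idempotents of rank one in the algebras generated by the matrices
`U ^ p V ^ q` one sees that it vanishes.
-/

set_option autoImplicit false

namespace Pool.Agent.Results.MP_5d2531_al.OuterBlocks

open Matrix Pool.Agent.H16NC
open Pool.Agent.Results.MP_5d2531_al.BlockTriangular (IsNuCentral)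

/-- `f` vanishes on all block upper triangular `n × n` matrices with two diagonal blocks, of sizes
`s` and `n - s`. -/
def VanishesOn {K : Type*} [Field K] {σ : Type*} (f : FreeAlgebra K σ) (n s : ℕ) : Prop :=
  ∀ X : σ → Matrix (Fin n) (Fin n) K,
    (∀ i (k l : Fin n), (l : ℕ) < s → s ≤ (k : ℕ) → X i k l = 0) → FreeAlgebra.lift K X f = 0

/-- A composition of `n`, given by its boundaries: `P` contains `0`, and it is periodic with period
`n`.  (The parts of the composition are the distances of consecutive elements of `P`.)  For every
`p ∈ P` there is `s` with `0 < s < n`, `p + s ∈ P`, such that `f` vanishes on the block upper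
triangular matrices with diagonal blocks of sizes `s`, `n - s`. -/
structure Admissible {K : Type*} [Field K] {σ : Type*} (f : FreeAlgebra K σ) (n : ℕ)
    (P : Set ℕ) : Prop where
  zero_mem : 0 ∈ P
  periodic : ∀ q, q + n ∈ P ↔ q ∈ P
  step : ∀ p ∈ P, ∃ s, 0 < s ∧ s < n ∧ p + s ∈ P ∧ VanishesOn f n s

/-- `X ^ n - 1` has a factorization over `K` whose factors have the parts of the composition as
degrees: there is a chain of divisors of `X ^ n - 1` whose degrees are the boundaries between
`0` and `n`. -/
def Factors (K : Type*) [Field K] (n : ℕ) (P : Set ℕ) : Prop :=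
  ∃ D : ℕ → Polynomial K,
    (∀ q ∈ P, q ≤ n → (D q).natDegree = q ∧ D q ∣ Polynomial.X ^ n - 1) ∧
    ∀ q ∈ P, ∀ r ∈ P, q ≤ r → r ≤ n → D q ∣ D r

/-- Let `n` be an odd prime, `K` an infinite field whose characteristic is not `n`, `f` an
`n`-central polynomial for `M_n(K)`, and `0 < a < n` such that `a ≠ 0` in `K`.

* A composition of `n` with the set `P` of boundaries is admissible if for every `p ∈ P` there is `s`
  with `0 < s < n` such that `p + s` and `p + (n - s)` are in `P`.
* Let `P` be the set of boundaries of an admissible composition of `n` whose first part is `a`, such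
  that `X ^ n - 1` has no factorization over `K` into factors whose degrees are the parts of the
  composition.  Then `f` vanishes on all matrices `X` of size `n + a` which are block upper triangular
  with the elements of `P` as boundaries, and whose last diagonal block (the places `n, …, n + a - 1`) is
  equal to the first one (the places `0, …, a - 1`).
* Let `K` have no primitive `n`-th root of unity and `2 a < n`.  Then `f` vanishes on all matrices `X` of
  size `n + a` which are block upper triangular with diagonal blocks of the sizes `a, 1, …, 1, a`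
  (`n - a` blocks of size one), such that the last diagonal block is equal to the first one. -/
theorem result {K : Type*} [Field K] [Infinite K] {σ : Type*} (n : ℕ) (hn : n.Prime)
    (hn2 : n ≠ 2) (hnK : (n : K) ≠ 0) (f : FreeAlgebra K σ) (hcen : IsNuCentral n n f)
    (a : ℕ) (ha : 0 < a) (han : a < n) (haK : (a : K) ≠ 0) :
    (∀ P : Set ℕ, 0 ∈ P → (∀ q, q + n ∈ P ↔ q ∈ P) →
      (∀ p ∈ P, ∃ s, 0 < s ∧ s < n ∧ p + s ∈ P ∧ p + (n - s) ∈ P) → Admissible f n P) ∧
    (∀ P : Set ℕ, Admissible f n P → a ∈ P → (∀ q, 0 < q → q < a → q ∉ P) → ¬ Factors K n P →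
      ∀ X : σ → Matrix (Fin (n + a)) (Fin (n + a)) K,
        (∀ i (k l : Fin (n + a)), ∀ q ∈ P, (l : ℕ) < q → q ≤ (k : ℕ) → X i k l = 0) →
        (∀ i (k l : Fin a), X i (Fin.natAdd n k) (Fin.natAdd n l) =
          X i (Fin.castLE (by omega) k) (Fin.castLE (by omega) l)) →
        FreeAlgebra.lift K X f = 0) ∧
    ((¬ ∃ ζ : K, IsPrimitiveRoot ζ n) → 2 * a < n →
      ∀ X : σ → Matrix (Fin (n + a)) (Fin (n + a)) K,
        (∀ i (k l : Fin (n + a)), (l : ℕ) < (k : ℕ) → ¬ (k : ℕ) < a → ¬ n ≤ (l : ℕ) →
          X i k l = 0) →
        (∀ i (k l : Fin a), X i (Fin.natAdd n k) (Fin.natAdd n l) =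
          X i (Fin.castLE (by omega) k) (Fin.castLE (by omega) l)) →
        FreeAlgebra.lift K X f = 0) := by
  have main : ∀ P : ℕ → Prop, (∀ q, P (q + n) ↔ P q) → P 0 → P a →
      (∀ q, 0 < q → q < a → ¬ P q) →
      (∀ p, P p → ∃ s, 0 < s ∧ s < n ∧ P (p + s) ∧ Van f n s) → ¬ Chain K n P →
      ∀ X : σ → Matrix (Fin (n + a)) (Fin (n + a)) K,
        (∀ i (k l : Fin (n + a)) q, P q → (l : ℕ) < q → q ≤ (k : ℕ) → X i k l = 0) →
        (∀ i (k l : Fin a), X i (Fin.natAdd n k) (Fin.natAdd n l) =
          X i (Fin.castLE (by omega) k) (Fin.castLE (by omega) l)) →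
        FreeAlgebra.lift K X f = 0 := by
    intro P hper hP0 hPa hmin hsink hNF X hX hXY
    refine window_zero hn hn2 hnK f hcen P hper hP0 hPa ha han hmin hsink ?_ X hX hXY
    intro m hm Y M hM B C
    subst hm
    exact cr_zero ha haK M f (a + m) (fun Y B C => corner_nil hn hnK f hcen P hper hP0 hPa ha
      (by omega) hmin hsink hNF Y M hM B C) Y B C
  refine ⟨fun P h0 hper hmid => ⟨h0, hper, fun p hp => ?_⟩, ?_, ?_⟩
  · obtain ⟨s, hs0, hsn, h1, h2⟩ := hmid p hp
    rcases van_or hn hn2 hnK f hcen s hs0 hsn with hV | hV
    · exact ⟨s, hs0, hsn, h1, hV⟩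
    · exact ⟨n - s, by omega, by omega, h2, hV⟩
  · intro P hP hPa hmin hNF X hX hXY
    refine main (fun q => q ∈ P) hP.periodic hP.zero_mem hPa hmin hP.step ?_ X
      (fun i k l q hq => hX i k l q hq) hXY
    rintro ⟨D, h1, h2⟩
    exact hNF ⟨D, fun q hq hqn => h1 q hq hqn, fun q hq r hr => h2 q r hq hr⟩
  · intro hK h2a X hX hXY
    have hn3 : 3 ≤ n := by have := hn.two_le; omega
    have hP1 : ∀ q, a ≤ q → q < n → PP n a q := fun q h1 h2 => by
      unfold PP
      rw [Nat.mod_eq_of_lt h2]
      exact Or.inr h1
    have hPn : PP n a n := by
      unfold PP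
      exact Or.inl (Nat.mod_self n)
    refine main (PP n a) (PP_per n a) (PP_zero n a) (hP1 a le_rfl han) ?_
      (PP_sink hn hn2 hnK f hcen a ha h2a) ?_ X ?_ hXY
    · intro q h0 h1 h2
      unfold PP at h2
      rw [Nat.mod_eq_of_lt (by omega)] at h2
      omega
    · refine no_chain hn hnK hK (PP n a) (n - 2) (n - 1) (by omega) (hP1 _ (by omega) (by omega))
        ?_ (hP1 _ (by omega) (by omega)) ?_ (by omega)
      · have : n - 2 + 1 = n - 1 := by omega
        rw [this]
        exact hP1 _ (by omega) (by omega)
      · have : n - 1 + 1 = n := by omega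
        rw [this]
        exact hPn
    · intro i k l q hq hl hk
      have hk2 := k.2
      apply hX i k l (by omega)
      · intro h1
        unfold PP at hq
        rw [Nat.mod_eq_of_lt (by omega)] at hq
        omega
      · intro h1
        unfold PP at hq
        have h3 : q % n = q - n := by
          rw [Nat.mod_eq_sub_mod (by omega), Nat.mod_eq_of_lt (by omega)]
        rw [h3] at hq
        omega

end Pool.Agent.Results.MP_5d2531_al.OuterBlocks
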