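import Mathlib
import Pool.Agent.H16NC.Gen6
import Pool.Agent.R176.NC.Word

/-!
# `n`-central polynomials on block triangular matrices with equal outer blocks, over all fields

`K` is any infinite field, `n` an odd prime which is not the characteristic of `K`, and `f` an
`n`-central polynomial for `M_n(K)` in any set of variables.  We consider block upper triangular
matrices of size `n + a` with diagonal blocks `Y_1, Y_2, …, Y_r, Y_1`, where the sizes of
`Y_1, …, Y_r` are the parts of a composition of `n`, and `Y_1` is an `a × a` matrix.

In the starting result `ClosedWalks` (`a = 1`, all blocks of size one) there are two alternatives: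
`f` vanishes on these matrices, or `K` has a primitive `n`-th root of unity `ζ` and the corner entries
of `f` at the cyclically shifted windows are `ψ, ζ ψ, ζ² ψ, …`.  The result `OuterBlocks` treats the
blocks `Y_1, …, Y_r, Y_1` under the assumption that `X ^ n - 1` has no factorization over `K` with the
sizes of the blocks as degrees, which fails if `K` contains the `n`-th roots of unity, in particular
if `K` is algebraically closed.  Here there is no assumption on `X ^ n - 1` at all.

* (General theorem.)  Let `3 ≤ a < n`, `a ≠ 0` in `K`.  If the composition of `n` is admissible (as in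
  `OuterBlocks`), its first part is `a`, and at least one part is equal to one, then `f` vanishes on all
  block upper triangular matrices with diagonal blocks `Y_1, …, Y_r, Y_1`.
* (Explicit case.)  Let `3 ≤ a`, `2 a < n`, `a ≠ 0` in `K`, and `0 < b ≤ a`.  Then `f` vanishes on all
  block upper triangular matrices of size `n + b` with diagonal blocks `Y, t_1, …, t_{n-b}, Y`, where `Y`
  is any `b × b` matrix and the `t_i` are scalars.  For `b = 1`: the second alternative of
  `ClosedWalks` does not occur, for all primes `n ≥ 7` if the characteristic of `K` is not `3` or `n`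
  (take `a = 3`), and for all primes `n ≥ 11` also in characteristic `3` (take `a = 4`).
* (Words.)  Under the same assumptions no word `y₁ x₁ ^ e₁ y₂ x₂ ^ e₂ ⋯ x_{n-1} ^ e_{n-1} y_n` occurs
  in `f`.

The proof.  Let `T` be the corner block of the value of `f` for off-diagonal blocks of rank one,
`D = x yᵀ`, and `h` the corner entry at the window which starts at a block of size one.  Then the
characteristic polynomial of `T(D)` divides `X ^ n - h(D) ^ n`, hence it is the product of the
`X - ζ h(D)` for `a` different `n`-th roots of unity `ζ`, if `h ≠ 0`.  Both `T` and `h` are linear in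
`D`, and equivariant under the conjugations of `Y_1` and `D`.  The leading terms for weights of the
Heisenberg matrices are an operator `S` with `S (U ^ i V ^ j) = φ(i, j) U ^ i V ^ j` and a multiple of
the trace, such that the characteristic polynomial of `S (x yᵀ)` is `∏ (X - q_i (yᵀ x))` for `a`
different numbers `q_i`.  Perturbation of the eigenvalues of `S` at the matrices `x yᵀ` with `x`, `y`
in the span of two unit vectors shows that this is impossible for `a ≥ 3`.  Hence `h = 0`, `T` is
nilpotent, and it vanishes by the argument of `OuterBlocks`.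
-/

set_option autoImplicit false

namespace Pool.Agent.Results.MP_5d2531_al.OuterBlocksAllFields

open Matrix Pool.Agent.H16NC
open Pool.Agent.Results.MP_5d2531_al.BlockTriangular (IsNuCentral coef Stair)

/-- `f` vanishes on all block upper triangular `n × n` matrices with two diagonal blocks, of sizes
`s` and `n - s`. -/
def VanishesOn {K : Type*} [Field K] {σ : Type*} (f : FreeAlgebra K σ) (n s : ℕ) : Prop :=
  ∀ X : σ → Matrix (Fin n) (Fin n) K,
    (∀ i (k l : Fin n), (l : ℕ) < s → s ≤ (k : ℕ) → X i k l = 0) → FreeAlgebra.lift K X f = 0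

/-- A composition of `n`, given by its boundaries: `P` contains `0`, and it is periodic with period
`n`.  (The parts of the composition are the distances of consecutive elements of `P`.)  For every
`p ∈ P` there is `s` with `0 < s < n`, `p + s ∈ P`, such that `f` vanishes on the block upper
triangular matrices with diagonal blocks of sizes `s`, `n - s`. -/
structure Admissible {K : Type*} [Field K] {σ : Type*} (f : FreeAlgebra K σ) (n : ℕ)
    (P : Set ℕ) : Prop where
  zero_mem : 0 ∈ P
  periodic : ∀ q, q + n ∈ P ↔ q ∈ P
  step : ∀ p ∈ P, ∃ s, 0 < s ∧ s < n ∧ p + s ∈ P ∧ VanishesOn f n s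

/-- Let `n` be an odd prime, `K` an infinite field whose characteristic is not `n`, `f` an
`n`-central polynomial for `M_n(K)`, and `3 ≤ a < n` such that `a ≠ 0` in `K`.  (`K` may contain the
`n`-th roots of unity.)

* A composition of `n` with the set `P` of boundaries is admissible if for every `p ∈ P` there is `s`
  with `0 < s < n` such that `p + s` and `p + (n - s)` are in `P`.
* Let `P` be the set of boundaries of an admissible composition of `n` whose first part is `a`, and
  such that some part is equal to one.  Then `f` vanishes on all matrices `X` of size `n + a` which are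
  block upper triangular with the elements of `P` as boundaries, and whose last diagonal block (the
  places `n, …, n + a - 1`) is equal to the first one (the places `0, …, a - 1`).
* Let `2 a < n` and `0 < b ≤ a`.  Then `f` vanishes on all matrices `X` of size `n + b` which are block
  upper triangular with diagonal blocks of the sizes `b, 1, …, 1, b` (`n - b` blocks of size one), such
  that the last diagonal block is equal to the first one.
* Let `2 a < n`.  Then no word `y l z` occurs in `f`, where `y`, `z` are letters and `l` is a word
  of the form `x₁ ^ e₁ y₂ x₂ ^ e₂ y₃ ⋯ y_{n-1} x_{n-1} ^ e_{n-1}`. -/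
theorem result {K : Type*} [Field K] [Infinite K] {σ : Type*} (n : ℕ) (hn : n.Prime)
    (hn2 : n ≠ 2) (hnK : (n : K) ≠ 0) (f : FreeAlgebra K σ) (hcen : IsNuCentral n n f)
    (a : ℕ) (ha3 : 3 ≤ a) (han : a < n) (haK : (a : K) ≠ 0) :
    (∀ P : Set ℕ, 0 ∈ P → (∀ q, q + n ∈ P ↔ q ∈ P) →
      (∀ p ∈ P, ∃ s, 0 < s ∧ s < n ∧ p + s ∈ P ∧ p + (n - s) ∈ P) → Admissible f n P) ∧
    (∀ P : Set ℕ, Admissible f n P → a ∈ P → (∀ q, 0 < q → q < a → q ∉ P) →
      (∃ k, a ≤ k ∧ k < n ∧ k ∈ P ∧ k + 1 ∈ P) →
      ∀ X : σ → Matrix (Fin (n + a)) (Fin (n + a)) K,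
        (∀ i (k l : Fin (n + a)), ∀ q ∈ P, (l : ℕ) < q → q ≤ (k : ℕ) → X i k l = 0) →
        (∀ i (k l : Fin a), X i (Fin.natAdd n k) (Fin.natAdd n l) =
          X i (Fin.castLE (by omega) k) (Fin.castLE (by omega) l)) →
        FreeAlgebra.lift K X f = 0) ∧
    (2 * a < n → ∀ b : ℕ, 0 < b → b ≤ a →
      ∀ X : σ → Matrix (Fin (n + b)) (Fin (n + b)) K,
        (∀ i (k l : Fin (n + b)), (l : ℕ) < (k : ℕ) → ¬ (k : ℕ) < b → ¬ n ≤ (l : ℕ) →
          X i k l = 0) →
        (∀ i (k l : Fin b), X i (Fin.natAdd n k) (Fin.natAdd n l) =
          X i (Fin.castLE (by omega) k) (Fin.castLE (by omega) l)) →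
        FreeAlgebra.lift K X f = 0) ∧
    (2 * a < n → ∀ l : List σ, Stair (n - 2) l → ∀ y z : σ, coef f (y :: l ++ [z]) = 0) := by
  refine ⟨fun P h0 hper hmid => ⟨h0, hper, fun p hp => ?_⟩, ?_, ?_, ?_⟩
  · obtain ⟨s, hs0, hsn, h1, h2⟩ := hmid p hp
    rcases van_or hn hn2 hnK f hcen s hs0 hsn with hV | hV
    · exact ⟨s, hs0, hsn, h1, hV⟩
    · exact ⟨n - s, by omega, by omega, h2, hV⟩
  · rintro P hP hPa hmin ⟨k0, hak, hkn, hk1, hk2⟩ X hX hXY
    exact window_zero2 hn hn2 hnK f hcen (fun q => q ∈ P) hP.periodic hP.zero_mem hPa ha3 haK
      han hmin hP.step k0 hak hkn hk1 hk2 X (fun i k l q hq => hX i k l q hq) hXY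
  · intro h2a b hb hba X hX hXY
    exact explicit_sub hn hn2 hnK f hcen ha3 haK h2a b hb hba X hX hXY
  · intro h2a l hl y z
    exact Pool.Agent.R176.NC.word_zero hn.two_le f
      (fun A hA hAA => window_one hn hn2 hnK f hcen ha3 haK h2a A hA hAA) l hl.toNC y z

end Pool.Agent.Results.MP_5d2531_al.OuterBlocksAllFields
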